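import Pool.Agent.helper82.T6.SpecL
import Pool.Agent.helper47.RA.Num

set_option autoImplicit false

namespace Pool.Agent.T6

open Finset Pool.Agent.helper3.FT

/-- the square root part -/
def Z5_s (d : ℕ) : ℕ := ∏ p ∈ d.primeFactors, p ^ (d.factorization p / 2)

theorem Z5_prod {d : ℕ} (hd : d ≠ 0) : ∏ p ∈ d.primeFactors, p ^ (d.factorization p) = d := by
  have h := Nat.prod_factorization_pow_eq_self hd
  rw [Finsupp.prod, Nat.support_factorization] at h
  exact h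

theorem Z5_sq {d : ℕ} (hd : d ≠ 0) : Z5_s d ^ 2 ∣ d := by
  have h : Z5_s d ^ 2 ∣ ∏ p ∈ d.primeFactors, p ^ (d.factorization p) := by
    rw [Z5_s, ← Finset.prod_pow]
    refine Finset.prod_dvd_prod_of_dvd _ _ fun p _ => ?_
    rw [← pow_mul]
    exact pow_dvd_pow p (Nat.div_mul_le_self _ 2)
  rwa [Z5_prod hd] at h

theorem Z5_pos (d : ℕ) : 1 ≤ Z5_s d := by
  have h : 0 < ∏ p ∈ d.primeFactors, p ^ (d.factorization p / 2) :=
    Finset.prod_pos fun p hp => pow_pos (Nat.prime_of_mem_primeFactors hp).pos _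
  exact h

theorem Z5_sum (w : ℕ) : ∑ d ∈ Ico (2 ^ w) (2 ^ (w + 1)), (Z5_s d : ℝ) ≤ 2 ^ (w + 1) * (w + 2) := by
  classical
  have hNpos : 0 < 2 ^ (w + 1) := by positivity
  obtain ⟨N, hN⟩ : ∃ N : ℕ, N = 2 ^ (w + 1) := ⟨_, rfl⟩
  rw [← hN] at hNpos ⊢
  have hwpos : 0 < 2 ^ w := by positivity
  have h1 : ∀ d ∈ Ico (2 ^ w) N, (Z5_s d : ℝ) ≤ ∑ s ∈ (Icc 1 N).filter (fun s => s ^ 2 ∣ d), (s : ℝ) := by
    intro d hd
    rw [mem_Ico] at hd
    have hd0 : d ≠ 0 := by omega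
    refine Finset.single_le_sum (f := fun s : ℕ => (s : ℝ)) (fun s _ => Nat.cast_nonneg s) ?_
    rw [mem_filter, mem_Icc]
    refine ⟨⟨Z5_pos d, ?_⟩, Z5_sq hd0⟩
    have h2 : Z5_s d ^ 2 ≤ d := Nat.le_of_dvd (Nat.pos_of_ne_zero hd0) (Z5_sq hd0)
    have h3 : Z5_s d ≤ Z5_s d ^ 2 := Nat.le_self_pow two_ne_zero _
    omega
  have h4 : ∑ d ∈ Ico (2 ^ w) N, (Z5_s d : ℝ) ≤ (N : ℝ) * (harmonic N : ℝ) := by
    calc ∑ d ∈ Ico (2 ^ w) N, (Z5_s d : ℝ)
        ≤ ∑ d ∈ Ico (2 ^ w) N, ∑ s ∈ (Icc 1 N).filter (fun s => s ^ 2 ∣ d), (s : ℝ) := sum_le_sum h1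
      _ = ∑ s ∈ Icc 1 N, ∑ d ∈ (Ico (2 ^ w) N).filter (fun d => s ^ 2 ∣ d), (s : ℝ) := by
          simp only [sum_filter]
          exact sum_comm
      _ ≤ ∑ s ∈ Icc 1 N, (N : ℝ) * (s : ℝ)⁻¹ := by
          refine sum_le_sum fun s hs => ?_
          rw [mem_Icc] at hs
          rw [sum_const, nsmul_eq_mul]
          have hcard : ((Ico (2 ^ w) N).filter (fun d => s ^ 2 ∣ d)).card ≤ N / s ^ 2 := by
            rw [← Nat.Ioc_filter_dvd_card_eq_div]
            refine card_le_card fun d hd => ?_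
            rw [mem_filter, mem_Ico] at hd
            rw [mem_filter, mem_Ioc]
            exact ⟨⟨by omega, by omega⟩, hd.2⟩
          have h2 : (((Ico (2 ^ w) N).filter (fun d => s ^ 2 ∣ d)).card : ℝ) ≤ (N : ℝ) / (s : ℝ) ^ 2 := by
            refine (Nat.cast_le.2 hcard).trans ?_
            refine Nat.cast_div_le.trans ?_
            rw [Nat.cast_pow]
          have hs0 : (0 : ℝ) < s := by exact_mod_cast hs.1
          calc (((Ico (2 ^ w) N).filter (fun d => s ^ 2 ∣ d)).card : ℝ) * s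
              ≤ ((N : ℝ) / (s : ℝ) ^ 2) * s := mul_le_mul_of_nonneg_right h2 hs0.le
            _ = (N : ℝ) * (s : ℝ)⁻¹ := by field_simp
      _ = (N : ℝ) * (harmonic N : ℝ) := by
          rw [← mul_sum, harmonic_eq_sum_Icc]
          push_cast
          rfl
  have h5 : (harmonic N : ℝ) ≤ 1 + Real.log N := by exact_mod_cast harmonic_le_one_add_log N
  have h6 : Real.log N ≤ w + 1 := by
    rw [hN]
    push_cast
    rw [Real.log_pow]
    have h7 : Real.log 2 ≤ 1 := by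
      have := Real.log_two_lt_d9
      linarith
    push_cast
    have h8 : (0 : ℝ) ≤ (w : ℝ) + 1 := by positivity
    calc ((w : ℝ) + 1) * Real.log 2 ≤ ((w : ℝ) + 1) * 1 := mul_le_mul_of_nonneg_left h7 h8
      _ = w + 1 := mul_one _
  have h9 : ((2 : ℝ) ^ (w + 1)) = (N : ℝ) := by rw [hN]; push_cast; rfl
  rw [h9]
  refine h4.trans ?_
  refine mul_le_mul_of_nonneg_left ?_ (Nat.cast_nonneg N)
  linarith

open Classical in
theorem Z5_cnt (hZ3 : Z3_stmt) (hZ4 : Z4_stmt) (d : ℕ) (n k : ℤ) (hd : 1 ≤ d) (hR : Rgh 5 d) (hc : IsCoprime n k)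
    (hn : n ≠ 0) (hk : k ≠ 0) :
    ((range d).filter (fun r => Nat.Coprime r d ∧ ∃ v : V4, Pm d v ∧ InW n k v ∧ InG d r v)).card ≤
      3 ^ d.primeFactors.card * Z5_s d := by
  have hd0 : d ≠ 0 := by omega
  obtain ⟨R, hRdef⟩ : ∃ R : ℕ → Finset ℕ, ∀ p, R p =
      (range (p ^ d.factorization p)).filter (fun r : ℕ => (p : ℤ) ^ d.factorization p ∣ k * r - n) ∪
      (range (p ^ d.factorization p)).filter (fun r : ℕ => Nat.Coprime r p ∧
        (p : ℤ) ^ d.factorization p ∣ (k ^ 2 * r ^ 2 + 3 * n * k * r + n ^ 2) ^ 2) := ⟨_, fun p => rfl⟩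
  have hfac : ∀ p ∈ d.primeFactors, p.Prime ∧ 5 < p ∧ 1 ≤ d.factorization p ∧ p ^ d.factorization p ∣ d := by
    intro p hp
    have hpp := Nat.prime_of_mem_primeFactors hp
    have hpd := Nat.dvd_of_mem_primeFactors hp
    exact ⟨hpp, hR p hpp hpd, (hpp.dvd_iff_one_le_factorization hd0).1 hpd, Nat.ordProj_dvd d p⟩
  have hRc : ∀ p ∈ d.primeFactors, (R p).card ≤ 3 * p ^ (d.factorization p / 2) := by
    intro p hp
    obtain ⟨hpp, hp5, ha, hpd⟩ := hfac p hp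
    rw [hRdef]
    refine (card_union_le _ _).trans ?_
    have h1 : ((range (p ^ d.factorization p)).filter
        (fun r : ℕ => (p : ℤ) ^ d.factorization p ∣ k * r - n)).card ≤ 1 := by
      rw [card_le_one]
      intro r hr r' hr'
      rw [mem_filter, mem_range] at hr hr'
      have hpk : ¬ (p : ℤ) ∣ k := by
        intro h
        have h2 : (p : ℤ) ∣ k * r - n := (dvd_pow_self _ (by omega)).trans hr.2
        have h3 : (p : ℤ) ∣ n := by
          have h4 : (p : ℤ) ∣ k * r - (k * r - n) := dvd_sub (h.mul_right _) h2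
          have h5 : k * r - (k * r - n) = n := by ring
          rwa [h5] at h4
        have h6 := hc.isUnit_of_dvd' h3 h
        exact (Nat.prime_iff_prime_int.1 hpp).not_isUnit h6
      have h7 : (p : ℤ) ^ d.factorization p ∣ k * ((r : ℤ) - r') := by
        have h8 := dvd_sub hr.2 hr'.2
        have h9 : k * (r : ℤ) - n - (k * r' - n) = k * ((r : ℤ) - r') := by ring
        rwa [h9] at h8
      have h10 : IsCoprime ((p : ℤ) ^ d.factorization p) k := by
        refine IsCoprime.pow_left ?_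
        exact ((Nat.prime_iff_prime_int.1 hpp).coprime_iff_not_dvd).2 hpk
      have h11 : (p : ℤ) ^ d.factorization p ∣ ((r : ℤ) - r') := h10.dvd_of_dvd_mul_left h7
      have h12 : (r' : ℤ) ≡ r [ZMOD ((p ^ d.factorization p : ℕ) : ℤ)] := by
        rw [Int.modEq_iff_dvd]
        push_cast
        exact h11
      have h13 : r' ≡ r [MOD p ^ d.factorization p] := Int.natCast_modEq_iff.1 h12
      exact (Nat.ModEq.eq_of_lt_of_lt h13 hr'.1 hr.1).symm
    have h2 := hZ4 p (d.factorization p) n k hpp hp5 ha hc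
    have h3 : ((range (p ^ d.factorization p)).filter (fun r : ℕ => Nat.Coprime r p ∧
        (p : ℤ) ^ d.factorization p ∣ (k ^ 2 * r ^ 2 + 3 * n * k * r + n ^ 2) ^ 2)).card ≤
        2 * p ^ (d.factorization p / 2) := h2
    have h4 : 1 ≤ p ^ (d.factorization p / 2) := Nat.one_le_pow _ _ hpp.pos
    omega
  have hinj : ((range d).filter (fun r => Nat.Coprime r d ∧ ∃ v : V4, Pm d v ∧ InW n k v ∧ InG d r v)).card ≤
      (d.primeFactors.pi R).card := by
    refine card_le_card_of_injOn (fun r p _ => r % p ^ d.factorization p) ?_ ?_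
    · intro r hr
      rw [mem_coe, mem_filter, mem_range] at hr
      obtain ⟨hrd, hrc, v, hPm, hW, hG⟩ := hr
      rw [mem_coe, mem_pi]
      intro p hp
      obtain ⟨hpp, hp5, ha, hpd⟩ := hfac p hp
      have hpdv := Nat.dvd_of_mem_primeFactors hp
      have hcp : Nat.Coprime r p := Nat.Coprime.coprime_dvd_right hpdv hrc
      have hPm' : Pm p v := fun q hq hqp => hPm q hq (hqp.trans hpdv)
      have hG' : InG (p ^ d.factorization p) r v := by
        have h1 : ((p ^ d.factorization p : ℕ) : ℤ) ∣ (d : ℤ) := Int.natCast_dvd_natCast.2 hpd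
        exact ⟨h1.trans hG.1, h1.trans hG.2⟩
      obtain ⟨hA, hB⟩ := hZ3 p (d.factorization p) r n k v hpp hp5 ha hcp hc hn hk hW hPm' hG'
      obtain ⟨q, ρ, hρ, hr⟩ : ∃ q ρ : ℕ, ρ = r % p ^ d.factorization p ∧ r = p ^ d.factorization p * q + ρ :=
        ⟨_, _, rfl, (Nat.div_add_mod r _).symm⟩
      have hrz : (r : ℤ) = (p : ℤ) ^ d.factorization p * q + ρ := by exact_mod_cast hr
      have hlt : ρ < p ^ d.factorization p := by rw [hρ]; exact Nat.mod_lt _ (pow_pos hpp.pos _)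
      show r % p ^ d.factorization p ∈ R p
      rw [← hρ, hRdef, mem_union, mem_filter, mem_filter, mem_range]
      by_cases h : (p : ℤ) ∣ k * r - n
      · left
        refine ⟨hlt, ?_⟩
        have h1 := hA h
        have h2 : k * (ρ : ℤ) - n = (k * r - n) - (p : ℤ) ^ d.factorization p * (k * q) := by rw [hrz]; ring
        rw [h2]
        exact dvd_sub h1 (dvd_mul_right _ _)
      · right
        refine ⟨hlt, ?_, ?_⟩
        · rw [hρ]
          have h3 : (r % p ^ d.factorization p) % p = r % p := Nat.mod_mod_of_dvd r (dvd_pow_self p (by omega))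
          have h4 : Nat.gcd (r % p ^ d.factorization p) p = Nat.gcd r p := by
            rw [Nat.gcd_comm, Nat.gcd_rec, h3, ← Nat.gcd_rec, Nat.gcd_comm]
          rw [Nat.Coprime, h4]
          exact hcp
        · have h1 := hB h
          have h2 : (k ^ 2 * (ρ : ℤ) ^ 2 + 3 * n * k * ρ + n ^ 2) ^ 2 =
              (k ^ 2 * r ^ 2 + 3 * n * k * r + n ^ 2) ^ 2 - (p : ℤ) ^ d.factorization p * (q * (k ^ 2 * (r + ρ) + 3 * n * k) *
                ((k ^ 2 * r ^ 2 + 3 * n * k * r + n ^ 2) + (k ^ 2 * (ρ : ℤ) ^ 2 + 3 * n * k * ρ + n ^ 2))) := by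
            rw [hrz]; ring
          rw [h2]
          exact dvd_sub h1 (dvd_mul_right _ _)
    · intro r hr r' hr' he
      rw [mem_coe, mem_filter, mem_range] at hr hr'
      have he' : ∀ p ∈ d.primeFactors, r % p ^ d.factorization p = r' % p ^ d.factorization p := by
        intro p hp
        exact congrFun (congrFun he p) hp
      have h1 : d ∣ ((r' : ℤ) - r).natAbs := by
        rw [Nat.dvd_iff_prime_pow_dvd_dvd]
        intro p j hp hj
        rcases Nat.eq_zero_or_pos j with h0 | hj0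
        · rw [h0, pow_zero]; exact one_dvd _
        · have hpd : p ∣ d := (dvd_pow_self p (by omega)).trans hj
          have hpm : p ∈ d.primeFactors := Nat.mem_primeFactors.2 ⟨hp, hpd, hd0⟩
          have hle : j ≤ d.factorization p := (hp.pow_dvd_iff_le_factorization hd0).1 hj
          refine (pow_dvd_pow p hle).trans ?_
          have h2 : r ≡ r' [MOD p ^ d.factorization p] := he' p hpm
          have h3 := (Nat.modEq_iff_dvd).1 h2
          exact Int.natCast_dvd.1 h3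
      have h4 : r ≡ r' [MOD d] := (Nat.modEq_iff_dvd).2 (Int.natCast_dvd.2 h1)
      exact Nat.ModEq.eq_of_lt_of_lt h4 hr.1 hr'.1
  refine hinj.trans ?_
  rw [card_pi]
  calc ∏ p ∈ d.primeFactors, (R p).card ≤ ∏ p ∈ d.primeFactors, (3 * p ^ (d.factorization p / 2)) :=
        Finset.prod_le_prod (fun _ _ => Nat.zero_le _) hRc
    _ = 3 ^ d.primeFactors.card * Z5_s d := by rw [prod_mul_distrib, prod_const, Z5_s]

theorem Z5_om {d : ℕ} (hd : d ≠ 0) : 3 ^ d.primeFactors.card ≤ d.divisors.card ^ 2 := by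
  have h1 : 2 ^ d.primeFactors.card ≤ d.divisors.card := by
    rw [Nat.card_divisors hd, ← prod_const]
    refine Finset.prod_le_prod (fun _ _ => Nat.zero_le _) fun p hp => ?_
    have := (Nat.Prime.dvd_iff_one_le_factorization (Nat.prime_of_mem_primeFactors hp) hd).1 (Nat.dvd_of_mem_primeFactors hp)
    omega
  calc 3 ^ d.primeFactors.card ≤ 4 ^ d.primeFactors.card := Nat.pow_le_pow_left (by norm_num) _
    _ = (2 ^ d.primeFactors.card) ^ 2 := by rw [← pow_mul, mul_comm, pow_mul]; norm_num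
    _ ≤ d.divisors.card ^ 2 := Nat.pow_le_pow_left h1 2

open Classical in
theorem Z5_red (hZ3 : Z3_stmt) (hZ4 : Z4_stmt) (y w : ℕ) (n k : ℤ) (hy : 5 ≤ y) (hc : IsCoprime n k) (hn : n ≠ 0)
    (hk : k ≠ 0) :
    ((PR y w).filter (fun p => ∃ v : V4, Pm p.1 v ∧ InW n k v ∧ InG p.1 p.2 v)).card ≤
      ∑ d ∈ Ico (2 ^ w) (2 ^ (w + 1)), 3 ^ d.primeFactors.card * Z5_s d := by
  rw [card_eq_sum_card_fiberwise (f := Prod.fst) (t := Ico (2 ^ w) (2 ^ (w + 1)))]
  · refine sum_le_sum fun d hd => ?_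
    rw [mem_Ico] at hd
    have hwpos : 0 < 2 ^ w := by positivity
    by_cases hR : Rgh 5 d
    · refine le_trans ?_ (Z5_cnt hZ3 hZ4 d n k (by omega) hR hc hn hk)
      refine card_le_card_of_injOn Prod.snd ?_ ?_
      · intro p hp
        rw [mem_coe, mem_filter, mem_filter, PR, mem_filter] at hp
        obtain ⟨⟨⟨-, h1, h2, -⟩, h4⟩, h5⟩ := hp
        subst h5
        rw [mem_coe, mem_filter, mem_range]
        exact ⟨h1, h2, h4⟩
      · intro p hp p' hp' he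
        rw [mem_coe, mem_filter] at hp hp'
        exact Prod.ext (hp.2.trans hp'.2.symm) he
    · have h0 : (((PR y w).filter (fun p => ∃ v : V4, Pm p.1 v ∧ InW n k v ∧ InG p.1 p.2 v)).filter
          (fun p => p.1 = d)).card = 0 := by
        rw [card_eq_zero, filter_eq_empty_iff]
        intro p hp he
        rw [mem_filter, PR, mem_filter] at hp
        apply hR
        rw [← he]
        intro q hq hqd
        have := hp.1.2.2.2 q hq hqd
        omega
      rw [h0]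
      exact Nat.zero_le _
  · intro p hp
    rw [mem_coe, mem_filter, PR, mem_filter, mem_product] at hp
    exact hp.1.1.1

theorem Z5 (hZ3 : Z3_stmt) (hZ4 : Z4_stmt) : Z5_stmt := by
  intro ε hε
  obtain ⟨C₁, hC₁, hdiv⟩ := Pool.Agent.helper47.RA.card_divisors_le (ε / 4) (by linarith)
  have hl2 : 0 < Real.log 2 := Real.log_pos (by norm_num)
  obtain ⟨C₂, hC₂⟩ : ∃ C₂ : ℝ, C₂ = 2 + 2 / (ε * Real.log 2) := ⟨_, rfl⟩
  have hC₂1 : 1 ≤ C₂ := by
    rw [hC₂]
    have : 0 ≤ 2 / (ε * Real.log 2) := by positivity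
    linarith
  have hw2 : ∀ w : ℕ, (w : ℝ) + 2 ≤ C₂ * (2 : ℝ) ^ ((ε / 2) * w) := by
    intro w
    have h1 : 1 + (ε / 2) * Real.log 2 * w ≤ (2 : ℝ) ^ ((ε / 2) * (w : ℝ)) := by
      rw [Real.rpow_def_of_pos (by norm_num : (0 : ℝ) < 2)]
      have := Real.add_one_le_exp (Real.log 2 * ((ε / 2) * w))
      linarith [this, mul_comm (Real.log 2) ((ε / 2) * (w : ℝ)), mul_assoc (ε / 2) (w : ℝ) (Real.log 2),
        mul_assoc (ε / 2) (Real.log 2) (w : ℝ), mul_comm (Real.log 2) (w : ℝ)]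
    have h2 : (w : ℝ) + 2 ≤ C₂ * (1 + (ε / 2) * Real.log 2 * w) := by
      have h3 : C₂ * (1 + (ε / 2) * Real.log 2 * w) = 2 + w + ε * Real.log 2 * w + 2 / (ε * Real.log 2) := by
        rw [hC₂]
        field_simp
        ring
      rw [h3]
      have h4 : 0 ≤ ε * Real.log 2 * w := by positivity
      have h5 : 0 ≤ 2 / (ε * Real.log 2) := by positivity
      linarith
    exact h2.trans (mul_le_mul_of_nonneg_left h1 (by linarith))
  refine ⟨C₁ ^ 2 * C₂ * (2 : ℝ) ^ (ε / 2 + 1), ?_, ?_⟩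
  · have h1 : (1 : ℝ) ≤ C₁ ^ 2 := one_le_pow₀ hC₁
    have h2 : (1 : ℝ) ≤ (2 : ℝ) ^ (ε / 2 + 1) := Real.one_le_rpow (by norm_num) (by linarith)
    have h3 : (1 : ℝ) ≤ C₁ ^ 2 * C₂ := one_le_mul_of_one_le_of_one_le h1 hC₂1
    exact one_le_mul_of_one_le_of_one_le h3 h2
  intro y w n k hy hc hn hk
  have h1 := Z5_red hZ3 hZ4 y w n k hy hc hn hk
  have h2 := (Nat.cast_le (α := ℝ)).2 h1
  rw [Nat.cast_sum] at h2
  simp only [Nat.cast_mul, Nat.cast_pow, Nat.cast_ofNat] at h2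
  have h3 : ∀ d ∈ Ico (2 ^ w) (2 ^ (w + 1)), (3 : ℝ) ^ d.primeFactors.card * (Z5_s d : ℝ) ≤
      C₁ ^ 2 * (2 : ℝ) ^ ((ε / 2) * (w + 1)) * Z5_s d := by
    intro d hd
    rw [mem_Ico] at hd
    have hwpos : 0 < 2 ^ w := by positivity
    have hd0 : d ≠ 0 := by omega
    have h4 : (3 : ℝ) ^ d.primeFactors.card ≤ (d.divisors.card : ℝ) ^ 2 := by exact_mod_cast Z5_om hd0
    have h5 : (d.divisors.card : ℝ) ≤ C₁ * (d : ℝ) ^ (ε / 4) := hdiv d (by omega)
    have h6 : (d : ℝ) ^ (ε / 4) ≤ ((2 : ℝ) ^ (w + 1)) ^ (ε / 4) := by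
      refine Real.rpow_le_rpow (Nat.cast_nonneg d) ?_ (by linarith)
      exact_mod_cast hd.2.le
    have h7 : (d.divisors.card : ℝ) ^ 2 ≤ (C₁ * ((2 : ℝ) ^ (w + 1)) ^ (ε / 4)) ^ 2 := by
      refine pow_le_pow_left₀ (Nat.cast_nonneg _) ?_ 2
      exact h5.trans (mul_le_mul_of_nonneg_left h6 (by linarith))
    have h8 : (C₁ * ((2 : ℝ) ^ (w + 1)) ^ (ε / 4)) ^ 2 = C₁ ^ 2 * (2 : ℝ) ^ ((ε / 2) * (w + 1)) := by
      rw [mul_pow, ← Real.rpow_natCast (((2 : ℝ) ^ (w + 1)) ^ (ε / 4)) 2, ← Real.rpow_natCast (2 : ℝ) (w + 1),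
        ← Real.rpow_mul (by positivity), ← Real.rpow_mul (by positivity)]
      congr 2
      push_cast
      ring
    refine mul_le_mul_of_nonneg_right ?_ (Nat.cast_nonneg _)
    rw [← h8]
    exact h4.trans h7
  refine h2.trans ((sum_le_sum h3).trans ?_)
  rw [← mul_sum]
  have h9 := Z5_sum w
  have h10 : (0 : ℝ) ≤ C₁ ^ 2 * (2 : ℝ) ^ ((ε / 2) * (w + 1)) := by positivity
  refine (mul_le_mul_of_nonneg_left h9 h10).trans ?_
  have h11 : (2 : ℝ) ^ (w + 1) * ((w : ℝ) + 2) ≤ (2 : ℝ) ^ (w + 1) * (C₂ * (2 : ℝ) ^ ((ε / 2) * w)) :=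
    mul_le_mul_of_nonneg_left (hw2 w) (by positivity)
  refine (mul_le_mul_of_nonneg_left h11 h10).trans (le_of_eq ?_)
  have e1 : (2 : ℝ) ^ (w + 1) = (2 : ℝ) ^ ((w : ℝ) + 1) := by
    rw [← Real.rpow_natCast]; push_cast; rfl
  have e2 : (2 : ℝ) ^ ((ε / 2) * ((w : ℝ) + 1)) * ((2 : ℝ) ^ ((w : ℝ) + 1) * (2 : ℝ) ^ ((ε / 2) * (w : ℝ))) =
      (2 : ℝ) ^ (ε / 2 + 1) * (2 : ℝ) ^ ((1 + ε) * (w : ℝ)) := by
    rw [← Real.rpow_add (by norm_num), ← Real.rpow_add (by norm_num), ← Real.rpow_add (by norm_num)]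
    congr 1
    ring
  rw [e1]
  calc C₁ ^ 2 * (2 : ℝ) ^ ((ε / 2) * ((w : ℝ) + 1)) * ((2 : ℝ) ^ ((w : ℝ) + 1) * (C₂ * (2 : ℝ) ^ ((ε / 2) * (w : ℝ))))
      = C₁ ^ 2 * C₂ * ((2 : ℝ) ^ ((ε / 2) * ((w : ℝ) + 1)) * ((2 : ℝ) ^ ((w : ℝ) + 1) * (2 : ℝ) ^ ((ε / 2) * (w : ℝ)))) := by ring
    _ = C₁ ^ 2 * C₂ * ((2 : ℝ) ^ (ε / 2 + 1) * (2 : ℝ) ^ ((1 + ε) * (w : ℝ))) := by rw [e2]
    _ = C₁ ^ 2 * C₂ * (2 : ℝ) ^ (ε / 2 + 1) * (2 : ℝ) ^ ((1 + ε) * (w : ℝ)) := by ring

end Pool.Agent.T6
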